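import Pool.Agent.W307.HT.Stm

/-!
# The Heawood graph: five edges at a path of three vertices are not in a circuit
-/

set_option autoImplicit false

namespace Pool.Agent.W925.HT

open SimpleGraph Pool.Agent.W307.HT

/-- a table of the edges -/
def eA (j : Fin 21) : Fin 14 :=
  match j.val with
  | 0 => 0 | 1 => 1 | 2 => 2 | 3 => 3 | 4 => 4 | 5 => 5 | 6 => 6 | 7 => 7 | 8 => 8 | 9 => 9
  | 10 => 10 | 11 => 11 | 12 => 12 | 13 => 13
  | 14 => 0 | 15 => 2 | 16 => 4 | 17 => 6 | 18 => 8 | 19 => 10 | _ => 12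

/-- a table of the edges -/
def eB (j : Fin 21) : Fin 14 :=
  match j.val with
  | 0 => 1 | 1 => 2 | 2 => 3 | 3 => 4 | 4 => 5 | 5 => 6 | 6 => 7 | 7 => 8 | 8 => 9 | 9 => 10
  | 10 => 11 | 11 => 12 | 12 => 13 | 13 => 0
  | 14 => 5 | 15 => 7 | 16 => 9 | 17 => 11 | 18 => 13 | 19 => 1 | _ => 3

/-- adjacency -/
def adj (i j : Fin 14) : Bool :=
  (j == i + 1) || (i == j + 1) || (i.val % 2 == 0 && j == i + 5) || (j.val % 2 == 0 && i == j + 5)

/-- the Heawood graph -/
def H : SimpleGraph (Fin 14) where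
  Adj i j := adj i j = true
  symm := ⟨by decide +kernel⟩
  loopless := ⟨by decide +kernel⟩

instance : DecidableRel H.Adj := fun i j => inferInstanceAs (Decidable (adj i j = true))

theorem H_cubic (v : Fin 14) : (H.neighborSet v).ncard = 3 := by
  have h : H.neighborSet v = ((Finset.univ.filter (fun j => H.Adj v j) : Finset (Fin 14)) : Set (Fin 14)) := by
    ext j; simp
  rw [h, Set.ncard_coe_finset]
  clear h
  revert v
  decide +kernel

theorem H_connected : H.Connected := by
  have hs : ∀ i : Fin 14, H.Adj i (i + 1) := by decide +kernel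
  have h0 : ∀ n (h : n < 14), H.Reachable 0 ⟨n, h⟩ := by
    intro n
    induction n with
    | zero => intro h; exact Reachable.refl _
    | succ n ih =>
      intro h
      refine (ih (by omega)).trans (Adj.reachable ?_)
      have := hs ⟨n, by omega⟩
      convert this using 1
      apply Fin.ext
      simp only [Fin.val_add]
      rw [Nat.mod_eq_of_lt]
      · rfl
      · change n + 1 < 14
        exact h
  rw [connected_iff]
  exact ⟨fun a b => (h0 a.1 a.2).symm.trans (h0 b.1 b.2), ⟨0⟩⟩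

/-- the first hexagon -/
def hex1 : H.Walk 0 0 :=
  Walk.cons (v := 1) (by decide +kernel) <| Walk.cons (v := 2) (by decide +kernel) <|
  Walk.cons (v := 7) (by decide +kernel) <| Walk.cons (v := 6) (by decide +kernel) <|
  Walk.cons (v := 5) (by decide +kernel) <| Walk.cons (v := 0) (by decide +kernel) Walk.nil

/-- the second hexagon -/
def hex2 : H.Walk 3 3 :=
  Walk.cons (v := 4) (by decide +kernel) <| Walk.cons (v := 9) (by decide +kernel) <|
  Walk.cons (v := 8) (by decide +kernel) <| Walk.cons (v := 13) (by decide +kernel) <|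
  Walk.cons (v := 12) (by decide +kernel) <| Walk.cons (v := 3) (by decide +kernel) Walk.nil

theorem hex1_cycle : hex1.IsCycle := by
  rw [Walk.isCycle_def]
  refine ⟨⟨?_⟩, ?_, ?_⟩
  · simp only [hex1, Walk.edges_cons, Walk.edges_nil]; decide
  · simp [hex1]
  · simp only [hex1, Walk.support_cons, Walk.support_nil, List.tail_cons]; decide

theorem hex2_cycle : hex2.IsCycle := by
  rw [Walk.isCycle_def]
  refine ⟨⟨?_⟩, ?_, ?_⟩
  · simp only [hex2, Walk.edges_cons, Walk.edges_nil]; decide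
  · simp [hex2]
  · simp only [hex2, Walk.support_cons, Walk.support_nil, List.tail_cons]; decide

theorem hex_disj : ∀ x, x ∈ hex1.support → x ∉ hex2.support := by
  simp only [hex1, hex2, Walk.support_cons, Walk.support_nil]; decide

/-- the finite check: a set of at least four and at most ten vertices has at least six boundary
edges -/
theorem finite_check : ∀ b0 b1 b2 b3 b4 b5 b6 b7 b8 b9 b10 b11 b12 b13 : Bool,
    (Nat.ble 6
      ((xor b0 b1).toNat + (xor b1 b2).toNat + (xor b2 b3).toNat + (xor b3 b4).toNat +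
      (xor b4 b5).toNat + (xor b5 b6).toNat + (xor b6 b7).toNat + (xor b7 b8).toNat +
      (xor b8 b9).toNat + (xor b9 b10).toNat + (xor b10 b11).toNat + (xor b11 b12).toNat +
      (xor b12 b13).toNat + (xor b13 b0).toNat + (xor b0 b5).toNat + (xor b2 b7).toNat +
      (xor b4 b9).toNat + (xor b6 b11).toNat + (xor b8 b13).toNat + (xor b10 b1).toNat +
      (xor b12 b3).toNat) ||
    Nat.ble (b0.toNat + b1.toNat + b2.toNat + b3.toNat + b4.toNat + b5.toNat + b6.toNat +
      b7.toNat + b8.toNat + b9.toNat + b10.toNat + b11.toNat + b12.toNat + b13.toNat) 3 ||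
    Nat.ble 11 (b0.toNat + b1.toNat + b2.toNat + b3.toNat + b4.toNat + b5.toNat + b6.toNat +
      b7.toNat + b8.toNat + b9.toNat + b10.toNat + b11.toNat + b12.toNat + b13.toNat)) = true := by
  decide +kernel

/-- in a circuit every vertex has two neighbours on the circuit -/
theorem cycle_two {V : Type} {G : SimpleGraph V} {v : V} {p : G.Walk v v} (hp : p.IsCycle) {w : V}
    (hw : w ∈ p.support) : ∃ x y, x ≠ y ∧ x ∈ p.support ∧ y ∈ p.support ∧ G.Adj w x ∧ G.Adj w y ∧
      s(w, x) ∈ p.edges ∧ s(w, y) ∈ p.edges ∧ ∀ z, s(w, z) ∈ p.edges → z = x ∨ z = y := by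
  have h2 := hp.ncard_neighborSet_toSubgraph_eq_two hw
  obtain ⟨x, y, hxy, hs⟩ := Set.ncard_eq_two.1 h2
  have hx : p.toSubgraph.Adj w x := by
    have : x ∈ p.toSubgraph.neighborSet w := by rw [hs]; simp
    exact this
  have hy : p.toSubgraph.Adj w y := by
    have : y ∈ p.toSubgraph.neighborSet w := by rw [hs]; simp
    exact this
  refine ⟨x, y, hxy, ?_, ?_, hx.adj_sub, hy.adj_sub, ?_, ?_, ?_⟩
  · exact (Walk.mem_verts_toSubgraph p).1 hx.snd_mem
  · exact (Walk.mem_verts_toSubgraph p).1 hy.snd_mem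
  · exact Walk.adj_toSubgraph_iff_mem_edges.1 hx
  · exact Walk.adj_toSubgraph_iff_mem_edges.1 hy
  · intro z hz
    have : z ∈ p.toSubgraph.neighborSet w := Walk.adj_toSubgraph_iff_mem_edges.2 hz
    rw [hs] at this
    simpa using this

theorem four_le (W : Finset (Fin 14)) (hne : W.Nonempty)
    (h2 : ∀ w ∈ W, ∃ x ∈ W, ∃ y ∈ W, x ≠ y ∧ H.Adj w x ∧ H.Adj w y) : 4 ≤ W.card := by
  have htf : ∀ a b c, H.Adj a b → H.Adj a c → ¬ H.Adj b c := by decide +kernel
  obtain ⟨w, hw⟩ := hne
  obtain ⟨x, hx, y, hy, hxy, hwx, hwy⟩ := h2 w hw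
  obtain ⟨z, hz, hzw, hzx⟩ : ∃ z ∈ W, z ≠ w ∧ H.Adj x z := by
    obtain ⟨a, ha, b, hb, hab, hxa, hxb⟩ := h2 x hx
    by_cases h : a = w
    · exact ⟨b, hb, fun h' => hab (h.trans h'.symm), hxb⟩
    · exact ⟨a, ha, h, hxa⟩
  have hzx' : z ≠ x := hzx.ne'
  have hzy : z ≠ y := by
    rintro rfl
    exact htf w x z hwx hwy hzx
  have hsub : ({w, x, y, z} : Finset (Fin 14)) ⊆ W := by
    intro t ht
    simp only [Finset.mem_insert, Finset.mem_singleton] at ht
    rcases ht with rfl | rfl | rfl | rfl <;> assumption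
  refine le_trans ?_ (Finset.card_le_card hsub)
  rw [Finset.card_insert_of_notMem, Finset.card_insert_of_notMem, Finset.card_insert_of_notMem,
    Finset.card_singleton]
  · simp only [Finset.mem_singleton]; exact hzy.symm
  · simp only [Finset.mem_insert, Finset.mem_singleton, not_or]; exact ⟨hxy, hzx'.symm⟩
  · simp only [Finset.mem_insert, Finset.mem_singleton, not_or]
    exact ⟨hwx.ne, hwy.ne, hzw.symm⟩

theorem reach_side (U : Set (Fin 14)) {a b : Fin 14}
    (h : (H.deleteEdges (cut H U)).Reachable a b) : a ∈ U ↔ b ∈ U := by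
  obtain ⟨p⟩ := h
  induction p with
  | nil => rfl
  | @cons u v w hadj p ih =>
    rw [← ih]
    rw [deleteEdges_adj] at hadj
    obtain ⟨h1, h2⟩ := hadj
    constructor
    · intro hu
      by_contra hv
      exact h2 ⟨u, v, hu, hv, h1, rfl⟩
    · intro hv
      by_contra hu
      exact h2 ⟨v, u, hv, hu, h1.symm, Sym2.eq_swap⟩

/-- a circuit in the component of `a` gives at least four vertices on the side of `a` -/
theorem side_card (U : Set (Fin 14)) {a v : Fin 14} (p : (H.deleteEdges (cut H U)).Walk v v)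
    (hp : p.IsCycle) (hav : (H.deleteEdges (cut H U)).Reachable a v)
    (T : Finset (Fin 14)) (hT : ∀ x, (a ∈ U ↔ x ∈ U) → x ∈ T) : 4 ≤ T.card := by
  classical
  have hsub : p.support.toFinset ⊆ T := by
    intro x hx
    rw [List.mem_toFinset] at hx
    apply hT
    apply reach_side
    exact hav.trans ⟨p.takeUntil x hx⟩
  refine le_trans (four_le p.support.toFinset ⟨v, by simp⟩ ?_) (Finset.card_le_card hsub)
  intro w hw
  rw [List.mem_toFinset] at hw
  obtain ⟨x, y, hxy, hx, hy, hwx, hwy, -⟩ := cycle_two hp hw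
  exact ⟨x, by simpa using hx, y, by simpa using hy, hxy,
    (deleteEdges_adj.1 hwx).1, (deleteEdges_adj.1 hwy).1⟩

theorem e_inj : ∀ i j : Fin 21, s(eA i, eB i) = s(eA j, eB j) → i = j := by decide +kernel

theorem e_adj : ∀ i : Fin 21, H.Adj (eA i) (eB i) := by decide +kernel

theorem sum21 (f : Fin 21 → ℕ) : ∑ j, f j = f 0 + f 1 + f 2 + f 3 + f 4 + f 5 + f 6 + f 7 + f 8 +
    f 9 + f 10 + f 11 + f 12 + f 13 + f 14 + f 15 + f 16 + f 17 + f 18 + f 19 + f 20 := by
  simp only [Fin.sum_univ_castSucc, Fin.sum_univ_zero, zero_add]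
  rfl

theorem sum14 (f : Fin 14 → ℕ) : ∑ j, f j = f 0 + f 1 + f 2 + f 3 + f 4 + f 5 + f 6 + f 7 + f 8 +
    f 9 + f 10 + f 11 + f 12 + f 13 := by
  simp only [Fin.sum_univ_castSucc, Fin.sum_univ_zero, zero_add]
  rfl

open Classical in
theorem six_le_cut (U : Set (Fin 14)) (h4 : 4 ≤ (Finset.univ.filter (fun x => x ∈ U)).card)
    (h4' : 4 ≤ (Finset.univ.filter (fun x => x ∉ U)).card) : 6 ≤ (cut H U).ncard := by
  set u : Fin 14 → Bool := fun x => decide (x ∈ U) with hu
  have hc : ∑ j : Fin 21, (xor (u (eA j)) (u (eB j))).toNat ≤ (cut H U).ncard := by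
    have h1 : ∑ j : Fin 21, (xor (u (eA j)) (u (eB j))).toNat =
        (Finset.univ.filter (fun j : Fin 21 => xor (u (eA j)) (u (eB j)) = true)).card := by
      rw [Finset.card_filter]
      refine Finset.sum_congr rfl fun j _ => ?_
      cases xor (u (eA j)) (u (eB j)) <;> simp
    rw [h1, ← Finset.card_image_of_injective _ (f := fun j : Fin 21 => s(eA j, eB j))
      (fun i j h => e_inj i j h), ← Set.ncard_coe_finset]
    refine Set.ncard_le_ncard ?_ (Set.toFinite _)
    intro e he
    simp only [Finset.coe_image, Set.mem_image, Finset.coe_filter, Finset.mem_univ, true_and,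
      Set.mem_ofPred_eq] at he
    obtain ⟨j, hj, rfl⟩ := he
    by_cases ha : eA j ∈ U <;> by_cases hb : eB j ∈ U
    · simp [hu, ha, hb] at hj
    · exact ⟨eA j, eB j, ha, hb, e_adj j, rfl⟩
    · exact ⟨eB j, eA j, hb, ha, (e_adj j).symm, Sym2.eq_swap⟩
    · simp [hu, ha, hb] at hj
  have hp : ∑ j : Fin 14, (u j).toNat = (Finset.univ.filter (fun x => x ∈ U)).card := by
    rw [Finset.card_filter]
    refine Finset.sum_congr rfl fun j _ => ?_
    by_cases hj : j ∈ U <;> simp [hu, hj]
  have hq : (Finset.univ.filter (fun x => x ∈ U)).card +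
      (Finset.univ.filter (fun x => x ∉ U)).card = 14 := by
    rw [Finset.card_filter_add_card_filter_not]
    simp
  have hfc := finite_check (u 0) (u 1) (u 2) (u 3) (u 4) (u 5) (u 6) (u 7) (u 8) (u 9) (u 10) (u 11)
    (u 12) (u 13)
  rw [sum21] at hc
  rw [sum14] at hp
  rw [Bool.or_eq_true, Bool.or_eq_true] at hfc
  rw [Nat.ble_eq, Nat.ble_eq, Nat.ble_eq] at hfc
  rcases hfc with (hfc | hfc) | hfc
  · exact hfc.trans hc
  · omega
  · omega

theorem H_cyc : CyclicallyEdgeConnected 6 H := by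
  classical
  refine ⟨H_connected, ⟨0, 3, hex1, hex2, hex1_cycle, hex2_cycle, hex_disj⟩, ?_⟩
  rintro S ⟨hne, ⟨U, rfl⟩, -⟩ hlt hall
  obtain ⟨e, a, b, ha, hb, -, -⟩ := hne
  obtain ⟨v, p, hp, hv⟩ := hall ((H.deleteEdges (cut H U)).connectedComponentMk a)
  obtain ⟨w, q, hq, hw⟩ := hall ((H.deleteEdges (cut H U)).connectedComponentMk b)
  rw [ConnectedComponent.mem_supp_iff, ConnectedComponent.eq] at hv hw
  have h1 := side_card U p hp hv.symm (Finset.univ.filter (fun x => x ∈ U))
    (fun x hx => by simpa using hx.1 ha)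
  have h2 := side_card U q hq hw.symm (Finset.univ.filter (fun x => x ∉ U))
    (fun x hx => by simpa using fun h => hb (hx.2 h))
  have := six_le_cut U h1 h2
  omega

/-- the five edges at the path `0 - 1 - 2` -/
def S : Finset (Sym2 (Fin 14)) := {s(0, 13), s(0, 5), s(1, 10), s(2, 3), s(2, 7)}

theorem S_mem (e : Sym2 (Fin 14)) : e ∈ (S : Set (Sym2 (Fin 14))) ↔
    e = s(0, 13) ∨ e = s(0, 5) ∨ e = s(1, 10) ∨ e = s(2, 3) ∨ e = s(2, 7) := by
  simp [S]

theorem S_path : PathSystem (S : Set (Sym2 (Fin 14))) := by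
  constructor
  · intro v p hp
    have key : ∀ w x y : Fin 14, x ≠ y → s(w, x) ∈ S → s(w, y) ∈ S → w = 0 ∨ w = 2 := by
      decide +kernel
    have key2 : ∀ w x : Fin 14, s(w, x) ∈ S → ¬ (x = 0 ∨ x = 2) ∨ ¬ (w = 0 ∨ w = 2) := by
      decide +kernel
    have hall : ∀ w ∈ p.support, w = 0 ∨ w = 2 := by
      intro w hw
      obtain ⟨x, y, hxy, -, -, hwx, hwy, -⟩ := cycle_two hp hw
      rw [fromEdgeSet_adj] at hwx hwy
      exact key w x y hxy hwx.1 hwy.1
    obtain ⟨x, y, hxy, hx, -, hwx, -⟩ := cycle_two hp p.start_mem_support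
    rw [fromEdgeSet_adj] at hwx
    rcases key2 v x hwx.1 with h | h
    · exact h (hall x hx)
    · exact h (hall v p.start_mem_support)
  · intro v
    have h : {e ∈ (S : Set (Sym2 (Fin 14))) | v ∈ e} = ((S.filter (fun e => v ∈ e) :
        Finset (Sym2 (Fin 14))) : Set (Sym2 (Fin 14))) := by
      ext e; simp
    rw [h, Set.ncard_coe_finset]
    clear h
    revert v
    decide +kernel

theorem S_no (v : Fin 14) (p : H.Walk v v) (hp : p.IsCycle) : ¬ ∀ e ∈ S, e ∈ p.edges := by
  intro hall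
  have e1 : s((0 : Fin 14), 13) ∈ p.edges := hall _ (by decide +kernel)
  have e2 : s((0 : Fin 14), 5) ∈ p.edges := hall _ (by decide +kernel)
  have e3 : s((1 : Fin 14), 10) ∈ p.edges := hall _ (by decide +kernel)
  have e4 : s((2 : Fin 14), 3) ∈ p.edges := hall _ (by decide +kernel)
  have e5 : s((2 : Fin 14), 7) ∈ p.edges := hall _ (by decide +kernel)
  have hn0 : s((1 : Fin 14), 0) ∉ p.edges := by
    intro h
    rw [Sym2.eq_swap] at h
    obtain ⟨x, y, hxy, -, -, -, -, -, -, hz⟩ := cycle_two hp (Walk.fst_mem_support_of_mem_edges p h)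
    have h1 := hz _ e1
    have h2 := hz _ e2
    have h3 := hz _ h
    rcases h1 with h1 | h1 <;> rcases h2 with h2 | h2 <;> rcases h3 with h3 | h3 <;> subst_vars <;>
      first
      | exact absurd h2 (by decide)
      | exact absurd h3 (by decide)
  have hn2 : s((1 : Fin 14), 2) ∉ p.edges := by
    intro h
    rw [Sym2.eq_swap] at h
    obtain ⟨x, y, hxy, -, -, -, -, -, -, hz⟩ := cycle_two hp (Walk.fst_mem_support_of_mem_edges p h)
    have h1 := hz _ e4
    have h2 := hz _ e5
    have h3 := hz _ h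
    rcases h1 with h1 | h1 <;> rcases h2 with h2 | h2 <;> rcases h3 with h3 | h3 <;> subst_vars <;>
      first
      | exact absurd h2 (by decide)
      | exact absurd h3 (by decide)
  obtain ⟨x, y, hxy, -, -, hx, hy, hxe, hye, -⟩ :=
    cycle_two hp (Walk.fst_mem_support_of_mem_edges p e3)
  have key : ∀ x : Fin 14, H.Adj 1 x → x = 0 ∨ x = 2 ∨ x = 10 := by decide +kernel
  have hx' : x = 10 := by
    rcases key x hx with rfl | rfl | rfl
    · exact absurd hxe hn0
    · exact absurd hxe hn2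
    · rfl
  have hy' : y = 10 := by
    rcases key y hy with rfl | rfl | rfl
    · exact absurd hye hn0
    · exact absurd hye hn2
    · rfl
  exact hxy (hx'.trans hy'.symm)

theorem hw : Pool.Agent.W307.HT.HW := by
  refine ⟨H, S, H_cubic, H_cyc, ?_, by decide +kernel, S_path, S_no⟩
  intro e he
  rw [S_mem] at he
  rcases he with rfl | rfl | rfl | rfl | rfl <;> rw [mem_edgeSet] <;> decide +kernel

end Pool.Agent.W925.HT
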